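import Pool.Agent.LKT.Stmts

/-!
# Squad LKT, row GEN: generic points are dense
-/

set_option autoImplicit false

namespace Pool.Agent.LKT.H81

open Pool.Agent.LCK Pool.Agent.LKT

/-- a function which is a polynomial on every line -/
def IsPL (h : (Fin 8 → E3) → ℝ) : Prop :=
  ∀ x y, ∃ p : Polynomial ℝ, ∀ t : ℝ, h (x + t • y) = p.eval t

theorem isPL_const (c : ℝ) : IsPL (fun _ => c) := by
  intro x y
  exact ⟨Polynomial.C c, fun t => by simp⟩

theorem IsPL.sub {f g : (Fin 8 → E3) → ℝ} (hf : IsPL f) (hg : IsPL g) :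
    IsPL (fun x => f x - g x) := by
  intro x y
  obtain ⟨p, hp⟩ := hf x y
  obtain ⟨q, hq⟩ := hg x y
  exact ⟨p - q, fun t => by simp only [hp t, hq t, Polynomial.eval_sub]⟩

/-- the homogeneous coordinates of the k-th point on the line, as polynomials -/
noncomputable def homP (x y : Fin 8 → E3) (k : Fin 8) : Fin 4 → Polynomial ℝ :=
  ![Polynomial.C (if k = 0 ∨ k = 7 then 0 else 1),
    Polynomial.C (x k 0) + Polynomial.X * Polynomial.C (y k 0),
    Polynomial.C (x k 1) + Polynomial.X * Polynomial.C (y k 1),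
    Polynomial.C (x k 2) + Polynomial.X * Polynomial.C (y k 2)]

theorem homP_eval (x y : Fin 8 → E3) (k : Fin 8) (i : Fin 4) (t : ℝ) :
    (homP x y k i).eval t = hom (x + t • y) k i := by
  fin_cases i
  · by_cases hk : k = 0 ∨ k = 7 <;> simp [homP, hom, hk]
  · simp [homP, hom]
    ring
  · simp [homP, hom]
    ring
  · simp [homP, hom]
    ring

theorem isPL_D (a b c d : Fin 8) : IsPL (fun x => D x a b c d) := by
  intro x y
  refine ⟨(Matrix.of ![homP x y a, homP x y b, homP x y c, homP x y d]).det, fun t => ?_⟩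
  have h := RingHom.map_det (Polynomial.evalRingHom t)
    (Matrix.of ![homP x y a, homP x y b, homP x y c, homP x y d])
  rw [Polynomial.coe_evalRingHom] at h
  rw [h]
  show D (x + t • y) a b c d = _
  unfold D d4
  congr 1
  ext i j
  rw [RingHom.mapMatrix_apply, Matrix.map_apply, Polynomial.coe_evalRingHom]
  fin_cases i
  · exact (homP_eval x y a j t).symm
  · exact (homP_eval x y b j t).symm
  · exact (homP_eval x y c j t).symm
  · exact (homP_eval x y d j t).symm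

theorem gen (nvd : NvdStmt) (gnp : GnpStmt) (gex : GexStmt) : GenStmt := by
  classical
  obtain ⟨z0, hz1, hz2⟩ := gex
  let C1 : (Fin 8 × Fin 8 × Fin 8 × Fin 8) → Prop := fun q =>
    q.1 < q.2.1 ∧ q.2.1 < q.2.2.1 ∧ q.2.2.1 < q.2.2.2
  let C2 : (Fin 8 × Fin 8 × Fin 8 × Fin 8 × Fin 8) → Prop := fun q =>
    1 ≤ q.1 ∧ q.1 < q.2.1 ∧ q.2.1 ≤ 6 ∧ q.2.2.1 < q.2.2.2.1 ∧ q.2.2.2.1 < q.2.2.2.2 ∧
    q.1 ≠ q.2.2.1 ∧ q.1 ≠ q.2.2.2.1 ∧ q.1 ≠ q.2.2.2.2 ∧
    q.2.1 ≠ q.2.2.1 ∧ q.2.1 ≠ q.2.2.2.1 ∧ q.2.1 ≠ q.2.2.2.2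
  let h1 : (Fin 8 × Fin 8 × Fin 8 × Fin 8) → (Fin 8 → E3) → ℝ := fun q =>
    if C1 q then (fun x => D x q.1 q.2.1 q.2.2.1 q.2.2.2) else (fun _ => 1)
  let h2 : (Fin 8 × Fin 8 × Fin 8 × Fin 8 × Fin 8) → (Fin 8 → E3) → ℝ := fun q =>
    if C2 q then (fun x => D x q.1 q.2.2.1 q.2.2.2.1 q.2.2.2.2 -
      D x q.2.1 q.2.2.1 q.2.2.2.1 q.2.2.2.2) else (fun _ => 1)
  let h : ((Fin 8 × Fin 8 × Fin 8 × Fin 8) ⊕ (Fin 8 × Fin 8 × Fin 8 × Fin 8 × Fin 8)) →
      (Fin 8 → E3) → ℝ := Sum.elim h1 h2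
  have hPL : ∀ q, IsPL (h q) := by
    rintro (q | q)
    · show IsPL (if C1 q then (fun x => D x q.1 q.2.1 q.2.2.1 q.2.2.2) else (fun _ => 1))
      split_ifs
      · exact isPL_D _ _ _ _
      · exact isPL_const 1
    · show IsPL (if C2 q then (fun x => D x q.1 q.2.2.1 q.2.2.2.1 q.2.2.2.2 -
        D x q.2.1 q.2.2.1 q.2.2.2.1 q.2.2.2.2) else (fun _ => 1))
      split_ifs
      · exact (isPL_D _ _ _ _).sub (isPL_D _ _ _ _)
      · exact isPL_const 1
  have hz : ∀ q, h q z0 ≠ 0 := by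
    rintro (q | q)
    · show (if C1 q then (fun x => D x q.1 q.2.1 q.2.2.1 q.2.2.2) else (fun _ => (1 : ℝ))) z0 ≠ 0
      split_ifs with hc
      · exact hz1 _ _ _ _ hc.1 hc.2.1 hc.2.2
      · exact one_ne_zero
    · show (if C2 q then (fun x => D x q.1 q.2.2.1 q.2.2.2.1 q.2.2.2.2 -
        D x q.2.1 q.2.2.1 q.2.2.2.1 q.2.2.2.2) else (fun _ => (1 : ℝ))) z0 ≠ 0
      split_ifs with hc
      · obtain ⟨c1, c2, c3, c4, c5, c6, c7, c8, c9, c10, c11⟩ := hc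
        exact hz2 _ _ _ _ _ c1 c2 c3 c4 c5 c6 c7 c8 c9 c10 c11
      · exact one_ne_zero
  let e := Fintype.equivFin
    ((Fin 8 × Fin 8 × Fin 8 × Fin 8) ⊕ (Fin 8 × Fin 8 × Fin 8 × Fin 8 × Fin 8))
  have hd := nvd _ (fun m => h (e.symm m)) z0 (fun m => hPL (e.symm m)) (fun m => hz (e.symm m))
  refine hd.mono ?_
  intro x hx
  have hx' : ∀ q, h q x ≠ 0 := by
    intro q
    have := hx (e q)
    simpa using this
  refine gnp x ?_ ?_
  · intro a b c d hab hbc hcd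
    have hq := hx' (Sum.inl (a, b, c, d))
    have hc : C1 (a, b, c, d) := ⟨hab, hbc, hcd⟩
    have hh : h (Sum.inl (a, b, c, d)) = fun x => D x a b c d := if_pos hc
    rw [hh] at hq
    exact hq
  · intro a b p q r g1 g2 g3 g4 g5 g6 g7 g8 g9 g10 g11
    have hq := hx' (Sum.inr (a, b, p, q, r))
    have hc : C2 (a, b, p, q, r) := ⟨g1, g2, g3, g4, g5, g6, g7, g8, g9, g10, g11⟩
    have hh : h (Sum.inr (a, b, p, q, r)) = fun x => D x a p q r - D x b p q r := if_pos hc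
    rw [hh] at hq
    exact hq

end Pool.Agent.LKT.H81
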